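import Pool.Agent.Lib_helper11.GK.Defs

/-! Block FILT: the filtration with weights `3 ^ j`. -/

set_option autoImplicit false

universe u v

namespace Pool.Agent.GK

open TensorProduct

section
variable (k : Type u) [Field k] {H : Type v} [Ring H] [Bialgebra k H]

/-- total weight of a word -/
def filt_wt {m : ℕ} (l : List (Fin m)) : ℕ := (l.map fun i => 3 ^ i.val).sum

/-- the filtration by weight of words -/
def filtF {m : ℕ} (c : Fin m → H) (n : ℕ) : Submodule k H :=
  Submodule.span k {z | ∃ l : List (Fin m), filt_wt l ≤ n ∧ z = (l.map c).prod}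

theorem filt_mem {m : ℕ} (c : Fin m → H) {n : ℕ} (l : List (Fin m)) (h : filt_wt l ≤ n) :
    (l.map c).prod ∈ filtF k c n := Submodule.subset_span ⟨l, h, rfl⟩

theorem filt_mono {m : ℕ} (c : Fin m → H) : Monotone (filtF k c) := by
  intro a b hab
  refine Submodule.span_mono ?_
  rintro z ⟨l, h, e⟩
  exact ⟨l, h.trans hab, e⟩

theorem filt_one_mem {m : ℕ} (c : Fin m → H) (n : ℕ) : (1 : H) ∈ filtF k c n := by
  have h := filt_mem k c (n := n) [] (by simp [filt_wt])
  simpa using h

theorem filt_c_mem {m : ℕ} (c : Fin m → H) (i : Fin m) : c i ∈ filtF k c (3 ^ i.val) := by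
  have h := filt_mem k c (n := 3 ^ i.val) [i] (by simp [filt_wt])
  simpa using h

theorem filt_mul_le {m : ℕ} (c : Fin m → H) (a b : ℕ) :
    filtF k c a * filtF k c b ≤ filtF k c (a + b) := by
  unfold filtF
  rw [Submodule.span_mul_span]
  refine Submodule.span_mono ?_
  rintro _ ⟨x, ⟨l, h, rfl⟩, y, ⟨l', h', rfl⟩, rfl⟩
  refine ⟨l ++ l', ?_, ?_⟩
  · unfold filt_wt at *
    rw [List.map_append, List.sum_append]
    omega
  · simp [List.map_append, List.prod_append]

theorem filt_mul {m : ℕ} (c : Fin m → H) (a b : ℕ) :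
    ∀ x ∈ filtF k c a, ∀ y ∈ filtF k c b, x * y ∈ filtF k c (a + b) :=
  fun _ hx _ hy => filt_mul_le k c a b (Submodule.mul_mem_mul hx hy)

theorem filt_TT_mono (F : ℕ → Submodule k H) {a b : ℕ} (hab : a ≤ b) : TT k F a ≤ TT k F b := by
  refine Submodule.span_mono ?_
  rintro z ⟨a', b', u, hu, v, hv, h, e⟩
  exact ⟨a', b', u, hu, v, hv, h.trans hab, e⟩

theorem filt_TT_mem {F : ℕ → Submodule k H} {a b n : ℕ} {u v : H} (hu : u ∈ F a) (hv : v ∈ F b)
    (h : a + b ≤ n) : u ⊗ₜ[k] v ∈ TT k F n :=
  Submodule.subset_span ⟨a, b, u, hu, v, hv, h, rfl⟩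

theorem filt_TT_mul {F : ℕ → Submodule k H}
    (hmul : ∀ a b : ℕ, ∀ x ∈ F a, ∀ y ∈ F b, x * y ∈ F (a + b)) (a b : ℕ) :
    TT k F a * TT k F b ≤ TT k F (a + b) := by
  unfold TT
  rw [Submodule.span_mul_span]
  refine Submodule.span_mono ?_
  rintro _ ⟨x, ⟨a1, b1, u, hu, v, hv, h, rfl⟩, y, ⟨a2, b2, u', hu', v', hv', h', rfl⟩, rfl⟩
  refine ⟨a1 + a2, b1 + b2, u * u', hmul _ _ _ hu _ hu', v * v', hmul _ _ _ hv _ hv', by omega, ?_⟩
  simp only [Algebra.TensorProduct.tmul_mul_tmul]

theorem filt_Tlt_le (F : ℕ → Submodule k H) (n : ℕ) : Tlt k F n ≤ TT k F n := by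
  cases n with
  | zero => exact bot_le
  | succ n => exact filt_TT_mono k F (Nat.le_succ n)

theorem filt_tsp_le {F : ℕ → Submodule k H} {a b n : ℕ} {A B : Submodule k H} (hA : A ≤ F a)
    (hB : B ≤ F b) (h : a + b ≤ n) : tsp k A B ≤ TT k F n := by
  unfold tsp
  rw [Submodule.map₂_le]
  intro x hx y hy
  exact filt_TT_mem k (hA hx) (hB hy) h

theorem filt_prim {m : ℕ} (c : Fin m → H)
    (hc : ∀ j : Fin m, Coalgebra.comul (R := k) (c j) - c j ⊗ₜ[k] (1 : H) - (1 : H) ⊗ₜ[k] c j ∈
        tsp k (Submodule.span k (insert (1 : H) (c '' {i | i < j})))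
          (Submodule.span k (insert (1 : H) (c '' {i | i < j})))) (j : Fin m) :
    Coalgebra.comul (R := k) (c j) - c j ⊗ₜ[k] (1 : H) - (1 : H) ⊗ₜ[k] c j ∈
      Tlt k (filtF k c) (3 ^ j.val) := by
  obtain ⟨d, hd, hd'⟩ : ∃ d, Submodule.span k (insert (1 : H) (c '' {i | i < j})) ≤
      filtF k c d ∧ d + d + 1 ≤ 3 ^ j.val := by
    rcases Nat.eq_zero_or_pos j.val with h | h
    · refine ⟨0, ?_, by rw [h]; norm_num⟩
      rw [Submodule.span_le]
      intro x hx
      rcases hx with rfl | ⟨i, hi, rfl⟩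
      · exact filt_one_mem k c _
      · have : i.val < j.val := hi
        omega
    · refine ⟨3 ^ (j.val - 1), ?_, ?_⟩
      · rw [Submodule.span_le]
        intro x hx
        rcases hx with rfl | ⟨i, hi, rfl⟩
        · exact filt_one_mem k c _
        · have hi' : i.val < j.val := hi
          exact filt_mono k c (Nat.pow_le_pow_right (by norm_num) (by omega)) (filt_c_mem k c i)
      · obtain ⟨t, ht⟩ : ∃ t, j.val = t + 1 := ⟨j.val - 1, by omega⟩
        rw [ht, Nat.add_sub_cancel, pow_succ]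
        have : 1 ≤ 3 ^ t := Nat.one_le_pow _ _ (by norm_num)
        omega
  obtain ⟨n, hn⟩ : ∃ n, 3 ^ j.val = n + 1 := ⟨3 ^ j.val - 1, by
    have : 1 ≤ 3 ^ j.val := Nat.one_le_pow _ _ (by norm_num)
    omega⟩
  rw [hn]
  exact filt_tsp_le k hd hd (by omega) (hc j)

theorem filt_comul_c {m : ℕ} (c : Fin m → H)
    (hc : ∀ j : Fin m, Coalgebra.comul (R := k) (c j) - c j ⊗ₜ[k] (1 : H) - (1 : H) ⊗ₜ[k] c j ∈
        tsp k (Submodule.span k (insert (1 : H) (c '' {i | i < j})))
          (Submodule.span k (insert (1 : H) (c '' {i | i < j})))) (j : Fin m) :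
    Coalgebra.comul (R := k) (c j) ∈ TT k (filtF k c) (3 ^ j.val) := by
  have h1 := filt_Tlt_le k _ _ (filt_prim k c hc j)
  have h2 : c j ⊗ₜ[k] (1 : H) ∈ TT k (filtF k c) (3 ^ j.val) :=
    filt_TT_mem k (filt_c_mem k c j) (filt_one_mem k c 0) (by omega)
  have h3 : (1 : H) ⊗ₜ[k] c j ∈ TT k (filtF k c) (3 ^ j.val) :=
    filt_TT_mem k (filt_one_mem k c 0) (filt_c_mem k c j) (by omega)
  have h4 := Submodule.add_mem _ (Submodule.add_mem _ h1 h3) h2
  have h5 : Coalgebra.comul (R := k) (c j) - c j ⊗ₜ[k] (1 : H) - (1 : H) ⊗ₜ[k] c j +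
      (1 : H) ⊗ₜ[k] c j + c j ⊗ₜ[k] (1 : H) = Coalgebra.comul (R := k) (c j) := by abel
  rwa [h5] at h4

theorem filt_comul_word {m : ℕ} (c : Fin m → H)
    (hc : ∀ j : Fin m, Coalgebra.comul (R := k) (c j) - c j ⊗ₜ[k] (1 : H) - (1 : H) ⊗ₜ[k] c j ∈
        tsp k (Submodule.span k (insert (1 : H) (c '' {i | i < j})))
          (Submodule.span k (insert (1 : H) (c '' {i | i < j})))) (l : List (Fin m)) :
    Coalgebra.comul (R := k) (l.map c).prod ∈ TT k (filtF k c) (filt_wt l) := by
  induction l with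
  | nil =>
    rw [List.map_nil, List.prod_nil, Bialgebra.comul_one, Algebra.TensorProduct.one_def]
    exact filt_TT_mem k (filt_one_mem k c 0) (filt_one_mem k c 0) (by omega)
  | cons i l ih =>
    rw [List.map_cons, List.prod_cons, Bialgebra.comul_mul]
    have h1 := filt_TT_mul k (filt_mul k c) (3 ^ i.val) (filt_wt l)
      (Submodule.mul_mem_mul (filt_comul_c k c hc i) ih)
    have h2 : filt_wt (i :: l) = 3 ^ i.val + filt_wt l := by
      unfold filt_wt
      rw [List.map_cons, List.sum_cons]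
    rwa [h2]

theorem filt_len_le {m : ℕ} (l : List (Fin m)) : l.length ≤ filt_wt l := by
  induction l with
  | nil => exact le_rfl
  | cons i l ih =>
    have h2 : filt_wt (i :: l) = 3 ^ i.val + filt_wt l := by
      unfold filt_wt
      rw [List.map_cons, List.sum_cons]
    have : 1 ≤ 3 ^ i.val := Nat.one_le_pow _ _ (by norm_num)
    rw [h2, List.length_cons]
    omega

/-- FILT -/
theorem filt_pr {m : ℕ} (c : Fin m → H)
    (hc : ∀ j : Fin m, Coalgebra.comul (R := k) (c j) - c j ⊗ₜ[k] (1 : H) - (1 : H) ⊗ₜ[k] c j ∈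
        tsp k (Submodule.span k (insert (1 : H) (c '' {i | i < j})))
          (Submodule.span k (insert (1 : H) (c '' {i | i < j})))) :
    ∃ (F : ℕ → Submodule k H) (w : Fin m → ℕ) (M : ℕ), IsFilt k F c w ∧
      (∀ n : ℕ, F n ≤ (Submodule.span k (insert (1 : H) (Set.range c))) ^ n) ∧
      (∀ n : ℕ, (Submodule.span k (insert (1 : H) (Set.range c))) ^ n ≤ F (M * n)) := by
  have hone : (1 : Submodule k H) ≤ Submodule.span k (insert (1 : H) (Set.range c)) := by
    rw [Submodule.one_le]
    exact Submodule.subset_span (Set.mem_insert _ _)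
  refine ⟨filtF k c, fun i => 3 ^ i.val, 3 ^ m, ?_, ?_, ?_⟩
  · refine ⟨?_, filt_mono k c, ?_, filt_mul k c, ?_, fun i => Nat.one_le_pow _ _ (by norm_num),
      fun i => ⟨filt_c_mem k c i, filt_prim k c hc i⟩, ?_⟩
    · refine le_antisymm ?_ ?_
      · refine Submodule.span_le.mpr ?_
        rintro z ⟨l, h, rfl⟩
        have h1 := filt_len_le l
        have h2 : l = [] := List.length_eq_zero_iff.mp (by omega)
        subst h2
        exact Submodule.subset_span (by simp)
      · rw [Submodule.span_singleton_le_iff_mem]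
        exact filt_one_mem k c 0
    · intro n
      refine Submodule.fg_span ?_
      have h1 : {z : H | ∃ l : List (Fin m), filt_wt l ≤ n ∧ z = (l.map c).prod} ⊆
          (fun l : List (Fin m) => (l.map c).prod) '' {l | l.length ≤ n} := by
        rintro z ⟨l, h, rfl⟩
        exact ⟨l, (filt_len_le l).trans h, rfl⟩
      exact ((List.finite_length_le (Fin m) n).image _).subset h1
    · intro n x hx
      refine Submodule.span_induction ?_ ?_ ?_ ?_ hx
      · rintro z ⟨l, h, rfl⟩
        exact filt_TT_mono k _ h (filt_comul_word k c hc l)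
      · rw [map_zero]
        exact Submodule.zero_mem _
      · intro x y _ _ hx hy
        rw [map_add]
        exact Submodule.add_mem _ hx hy
      · intro a x _ hx
        rw [map_smul]
        exact Submodule.smul_mem _ _ hx
    · intro n hn
      refine Submodule.span_le.mpr ?_
      rintro z ⟨l, h, rfl⟩
      cases l with
      | nil =>
        refine Submodule.mem_sup_left ?_
        obtain ⟨n', rfl⟩ : ∃ n', n = n' + 1 := ⟨n - 1, by omega⟩
        rw [List.map_nil, List.prod_nil]
        exact filt_one_mem k c n'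
      | cons i l =>
        refine Submodule.mem_sup_right (Submodule.subset_span ?_)
        have h2 : filt_wt (i :: l) = 3 ^ i.val + filt_wt l := by
          unfold filt_wt
          rw [List.map_cons, List.sum_cons]
        refine ⟨i, by omega, (l.map c).prod, filt_mem k c l (by omega), ?_⟩
        rw [List.map_cons, List.prod_cons]
  · intro n
    refine Submodule.span_le.mpr ?_
    rintro z ⟨l, h, rfl⟩
    have h1 : (l.map c).prod ∈ (Submodule.span k (insert (1 : H) (Set.range c))) ^ l.length := by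
      clear h
      induction l with
      | nil =>
        rw [List.map_nil, List.prod_nil, List.length_nil, pow_zero]
        exact Submodule.one_le.mp le_rfl
      | cons i l ih =>
        rw [List.map_cons, List.prod_cons, List.length_cons, pow_succ']
        exact Submodule.mul_mem_mul (Submodule.subset_span (Or.inr ⟨i, rfl⟩)) ih
    exact pow_le_pow_right₀ hone ((filt_len_le l).trans h) h1
  · intro n
    have hC : Submodule.span k (insert (1 : H) (Set.range c)) ≤ filtF k c (3 ^ m) := by
      rw [Submodule.span_le]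
      rintro x (rfl | ⟨i, rfl⟩)
      · exact filt_one_mem k c _
      · exact filt_mono k c (Nat.pow_le_pow_right (by norm_num) i.isLt.le) (filt_c_mem k c i)
    induction n with
    | zero =>
      rw [pow_zero, Submodule.one_le]
      exact filt_one_mem k c _
    | succ n ih =>
      rw [pow_succ, Nat.mul_succ]
      exact (mul_le_mul' ih hC).trans (filt_mul_le k c _ _)

end

end Pool.Agent.GK
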